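import Pool.Agent.N561.V.Defs

/-!
# Explicit constants: every vertex has a circle, or weight `|a| ≥ 16`, or at least `32` neighbours

All variables are in the rectangle `DD`, all critical points in `D0`.  `sg` is the potential of
every edge.  The path through a critical point `z` is `PP z`, with the ends `1` and `-1`; beyond the
ends the path is just above the real axis.
-/

set_option autoImplicit false

namespace Pool.Agent.N561.EK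

open Finset Filter Topology Metric
open Pool.Agent.W711.HT hiding XX
open Pool.Agent.TH563.UV
open Pool.Agent.N561
open scoped Real

/-! ### Domains -/

/-- the domain of all variables -/
def DD : Set ℂ := {w | |w.re| < 21 / 20 ∧ |w.im| < 1 / 4}

/-- a convex set which contains all critical points -/
def D1 : Set ℂ := {w | ‖w‖ ≤ 21 / 50 ∧ |w.im| ≤ 23 / 100}

/-- the critical points -/
def D0 : Set ℂ := {w | ‖w‖ ≤ 21 / 50 ∧ w.im ≤ 23 / 100 ∧ (w = 0 ∨ 0 < w.im)}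

/-- the path through `z`, between the ends `1` and `-1` -/
def PP (z : ℂ) : Set ℂ :=
  {w | (|w.re| ≤ 1 ∧ w.im = z.im) ∨ (|w.re| = 1 ∧ 0 ≤ w.im ∧ w.im ≤ z.im)}

/-- the ends of the paths -/
def CO (w : ℂ) : Prop := |w.re| = 1 ∧ w.im = 0

/-- an affine function on each of the three segments of `PP z`, with value `0` at `z`; `G` is the
derivative at `z` -/
noncomputable def tg (z G w : ℂ) : ℝ :=
  (z.im - w.im) * G.im + w.im / z.im * (w.re - z.re) * G.re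

/-- the derivative of `sg` in the first variable -/
noncomputable def s1 (ψ φ : ℂ) : ℂ := deriv (fun w => sg w φ) ψ

/-- the derivative of `sg` in the second variable -/
noncomputable def s2 (ψ φ : ℂ) : ℂ := deriv (fun w => sg ψ w) φ

/-- the square root in the second derivatives -/
noncomputable def rr (ψ φ : ℂ) : ℂ :=
  (1 - Complex.sin (ψ / 2) ^ 2 * Complex.sin (φ / 2) ^ 2) ^ (1 / 2 : ℂ)

/-- the inverse hyperbolic sine -/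
noncomputable def ash (w : ℂ) : ℂ := Complex.log (w + (1 + w ^ 2) ^ (1 / 2 : ℂ))

/-! ### The potential -/

/-- EK/1: the potential on `DD × DD` -/
structure POT : Prop where
  san : DifferentiableOn ℂ (fun p : ℂ × ℂ => sg p.1 p.2) (DD ×ˢ DD)
  dan : DifferentiableOn ℂ (fun p : ℂ × ℂ => dst p.1 p.2) (DD ×ˢ DD)
  sym : ∀ ψ φ : ℂ, sg ψ φ = sg φ ψ
  ev : ∀ ψ φ : ℂ, sg (-ψ) φ = sg ψ φ
  zero : sg 0 0 = ((2 * bet : ℝ) : ℂ)
  rre : ∀ ψ ∈ DD, ∀ φ ∈ DD, 0 < (rr ψ φ).re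
  d1 : ∀ ψ ∈ DD, ∀ φ ∈ DD,
    HasDerivAt (fun z => sg z φ) (-(1 / (2 * π)) * Lg (2 * π * dst ψ φ) ψ) ψ
  d2 : ∀ ψ ∈ DD, ∀ φ ∈ DD,
    HasDerivAt (fun z => sg ψ z) (-(1 / (2 * π)) * Lg (2 * π * dst ψ φ) φ) φ
  e1 : ∀ ψ ∈ DD, ∀ φ ∈ DD,
    s1 ψ φ = -(1 / π) * ash (Complex.tan (ψ / 2) * Complex.cos (φ / 2))
  e2 : ∀ ψ ∈ DD, ∀ φ ∈ DD,
    s2 ψ φ = -(1 / π) * ash (Complex.tan (φ / 2) * Complex.cos (ψ / 2))
  d11 : ∀ ψ ∈ DD, ∀ φ ∈ DD, HasDerivAt (fun z => s1 z φ)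
    (-(1 / (2 * π)) * (Complex.cos (φ / 2) / (Complex.cos (ψ / 2) * rr ψ φ))) ψ
  d12 : ∀ ψ ∈ DD, ∀ φ ∈ DD, HasDerivAt (fun z => s1 ψ z)
    (1 / (2 * π) * (Complex.sin (ψ / 2) * Complex.sin (φ / 2) / rr ψ φ)) φ
  d21 : ∀ ψ ∈ DD, ∀ φ ∈ DD, HasDerivAt (fun z => s2 z φ)
    (1 / (2 * π) * (Complex.sin (ψ / 2) * Complex.sin (φ / 2) / rr ψ φ)) ψ
  d22 : ∀ ψ ∈ DD, ∀ φ ∈ DD, HasDerivAt (fun z => s2 ψ z)
    (-(1 / (2 * π)) * (Complex.cos (ψ / 2) / (Complex.cos (φ / 2) * rr ψ φ))) φ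
  dcos : ∀ ψ ∈ DD, ∀ φ ∈ DD, Complex.cos (2 * π * dst ψ φ) =
    (1 - Complex.cos ψ * Complex.cos φ) / (2 + Complex.cos ψ + Complex.cos φ)
  den : ∀ ψ ∈ DD, ∀ φ ∈ DD, 2 + Complex.cos ψ + Complex.cos φ ≠ 0
  dcr : ∀ ψ ∈ DD, ∀ φ ∈ DD, HasDerivAt (TH ψ φ) 0 (dst ψ φ)
  dneg : ∀ ψ ∈ DD, ∀ φ ∈ DD, (deriv (deriv (TH ψ φ)) (dst ψ φ)).re < 0

/-- EK/1 -/
def S_POT : Prop := POT

/-- EK/2: bounds of the second derivatives (elementary functions only).  `hes`: the real part of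
the Hessian of `-2 π sg` is at least `3 / 5`; the true minimum of the eigenvalues is `0.750`.
True values of the other bounds: `0.044`, `0.109`, `0.039`, `0.151` -/
structure HES : Prop where
  hes : ∀ ψ ∈ DD, ∀ φ ∈ DD, ∀ u v : ℝ, 3 / 5 * (u ^ 2 + v ^ 2) ≤
    (Complex.cos (φ / 2) / (Complex.cos (ψ / 2) * rr ψ φ)).re * u ^ 2 -
    2 * (Complex.sin (ψ / 2) * Complex.sin (φ / 2) / rr ψ φ).re * u * v +
    (Complex.cos (ψ / 2) / (Complex.cos (φ / 2) * rr ψ φ)).re * v ^ 2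
  mixb : ∀ ψ ∈ D1, ∀ φ ∈ D1, ‖Complex.sin (ψ / 2) * Complex.sin (φ / 2) / rr ψ φ‖ ≤ 1 / 20
  mixc : ∀ ψ ∈ D1, ∀ φ ∈ DD, ‖Complex.sin (ψ / 2) * Complex.sin (φ / 2) / rr ψ φ‖ ≤ 3 / 20
  sec1 : ∀ ψ ∈ D1, ∀ φ ∈ D1,
    ‖Complex.cos (φ / 2) / (Complex.cos (ψ / 2) * rr ψ φ) - 1‖ ≤ 1 / 12
  sec2 : ∀ ψ ∈ D1, ∀ φ ∈ DD,
    ‖Complex.cos (φ / 2) / (Complex.cos (ψ / 2) * rr ψ φ) - 1‖ ≤ 1 / 4

/-- EK/2 -/
def S_HES : Prop := HES

/-- EK/3: bounds of the first derivatives.  True values: `0.146` on `DD × DD`, `0.027` on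
`D1 × D1` -/
structure MUL : Prop where
  mD : ∀ ψ ∈ DD, ∀ φ ∈ DD, ‖s1 ψ φ + ψ / (2 * π)‖ ≤ 1 / 4 * ‖ψ‖ / (2 * π)
  m1 : ∀ ψ ∈ D1, ∀ φ ∈ D1, ‖s1 ψ φ + ψ / (2 * π)‖ ≤ 1 / 20 * ‖ψ‖ / (2 * π)

/-- EK/3 -/
def S_MUL : Prop := POT → HES → MUL

/-- EK/4: the inequalities at the ends of the paths.  True values of the left side minus the first
term on the right: `-0.0656`, `-0.1248`, `-0.0585` -/
structure COR : Prop where
  c2 : ∀ z ∈ D0, ∀ z' ∈ D0, ∀ w w' : ℂ, CO w → |w'.re| ≤ 1 → w'.im = z'.im →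
    (sg w w').re + 1 / 50 ≤
      (sg z z').re + z.im * (s1 z z').im + (w'.re - z'.re) * (s2 z z').re
  c3 : ∀ z ∈ D0, ∀ z' ∈ D0, ∀ w w' : ℂ, CO w → CO w' →
    (sg w w').re + 1 / 50 ≤ (sg z z').re + z.im * (s1 z z').im + z'.im * (s2 z z').im
  c1 : ∀ z ∈ D0, ∀ ψ ∈ DD, ∀ w : ℂ, CO w →
    (sg w ψ).re + 1 / 50 ≤ (sg z ψ).re + z.im * (s1 z ψ).im

/-- EK/4 -/
def S_COR : Prop := POT → MUL → COR

/-- EK/5: the inequality at an edge, two variables and one variable -/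
structure EDG : Prop where
  e2 : ∀ z ∈ D0, ∀ z' ∈ D0, ∀ w ∈ PP z, ∀ w' ∈ PP z',
    (sg w w').re ≤ (sg z z').re + tg z (s1 z z') w + tg z' (s2 z z') w' ∧
    ((w ≠ z ∨ w' ≠ z') →
      (sg w w').re < (sg z z').re + tg z (s1 z z') w + tg z' (s2 z z') w') ∧
    ((CO w ∨ CO w') →
      (sg w w').re + 1 / 50 ≤ (sg z z').re + tg z (s1 z z') w + tg z' (s2 z z') w')
  e1 : ∀ z ∈ D0, ∀ ψ ∈ DD, ∀ w ∈ PP z,
    (sg w ψ).re ≤ (sg z ψ).re + tg z (s1 z ψ) w ∧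
    (w ≠ z → (sg w ψ).re < (sg z ψ).re + tg z (s1 z ψ) w) ∧
    (CO w → (sg w ψ).re + 1 / 50 ≤ (sg z ψ).re + tg z (s1 z ψ) w)

/-- EK/5 -/
def S_EDG : Prop := POT → HES → COR → EDG

/-! ### The kernel -/

/-- EK/6: properties of the potential of the sum over `d`; `1 / 40` is the height and
`[1 / 50, 8 / 25]` the width of the rectangle.  True values: `Re dst` in `[0.2096, 0.2525]`,
`|Im dst| ≤ 0.0179`, left side minus right side in `side`: `-0.047`, in `top`: `-0.127` -/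
structure THS : Prop where
  pos : ∀ ψ ∈ DD, ∀ φ ∈ DD, 1 / 5 ≤ (dst ψ φ).re ∧ (dst ψ φ).re ≤ 13 / 50 ∧
    |(dst ψ φ).im| ≤ 11 / 500
  line : ∀ ψ ∈ DD, ∀ φ ∈ DD, ∀ x : ℝ, 1 / 50 ≤ x → x ≤ 8 / 25 → x ≠ (dst ψ φ).re →
    (TH ψ φ (x + (dst ψ φ).im * Complex.I)).re < (sg ψ φ).re
  side : ∀ ψ ∈ DD, ∀ φ ∈ DD, ∀ y : ℝ, |y| ≤ 1 / 40 →
    (TH ψ φ ((1 / 50 : ℝ) + y * Complex.I)).re < (sg ψ φ).re ∧
    (TH ψ φ ((8 / 25 : ℝ) + y * Complex.I)).re < (sg ψ φ).re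
  top : ∀ ψ ∈ DD, ∀ φ ∈ DD, ∀ x : ℝ, 1 / 50 ≤ x → x ≤ 8 / 25 →
    (TH ψ φ (x + (1 / 40 : ℝ) * Complex.I)).re - 2 * π * (1 / 40) < (sg ψ φ).re ∧
    (TH ψ φ (x - (1 / 40 : ℝ) * Complex.I)).re - 2 * π * (1 / 40) < (sg ψ φ).re

/-- EK/6 -/
def S_THS : Prop := POT → THS

/-- the lower half of the kernel -/
def K0M : Prop := ∀ V : Set ℂ, V ⊆ DD → IsCompact V → ∀ ε : ℝ, 0 < ε → ∀ᶠ N : ℕ in atTop,
  ∀ ψ ∈ V, ∀ φ ∈ V, k0 N ψ φ ≠ 0 ∧ |Real.log ‖k0 N ψ φ‖ - N * (sg ψ φ).re| ≤ ε * N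

/-- EK/7: asymptotics of the lower half of the kernel, from `S_LAPL` and the saddle point method for
sums (`Pool.Agent.W711.HT.S_LAPSUM`), as `S_NEAR` -/
def S_K0M : Prop := POT → THS → K0M

/-- asymptotics of the kernel -/
def KMW : Prop := ∀ V : Set ℂ, V ⊆ DD → IsCompact V → ∀ ε : ℝ, 0 < ε → ∀ᶠ N : ℕ in atTop,
  ∀ ψ ∈ V, ∀ φ ∈ V, ker N ψ φ ≠ 0 ∧ |Real.log ‖ker N ψ φ‖ - N * (sg ψ φ).re| ≤ ε * N

/-- the upper half of the kernel -/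
def KUP : Prop := ∀ ε : ℝ, 0 < ε → ∀ᶠ N : ℕ in atTop, ∀ ψ φ : ℂ,
  ‖ker N ψ φ - k0 N ψ φ‖ ≤ Real.exp (N * (|ψ.im| + |φ.im| + ε))

/-- EK/8: from `S_RB` (second part, on the real axis) and Bernstein's inequality for trigonometric
polynomials; then the kernel -/
def S_KUP : Prop := KUP ∧ (POT → MUL → K0M → KMW)

/-- EK/9: bounds of the kernel beyond the ends of the paths -/
structure KFR : Prop where
  f1 : ∀ V : Set ℂ, V ⊆ DD → IsCompact V → ∀ ε : ℝ, 0 < ε → ∃ τ : ℝ, 0 < τ ∧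
    ∀ᶠ N : ℕ in atTop, ∀ ψ ∈ V, ∀ x y : ℝ, 1 ≤ |x| → |x| ≤ π → |y| ≤ τ →
      ‖ker N ψ (x + y * Complex.I)‖ ≤ Real.exp (N * ((sg ψ 1).re + 1 / 100 + ε))
  f2 : ∀ ε : ℝ, 0 < ε → ∃ τ : ℝ, 0 < τ ∧ ∀ᶠ N : ℕ in atTop, ∀ x y x' y' : ℝ, 1 ≤ |x| →
    |x| ≤ π → |y| ≤ τ → 1 ≤ |x'| → |x'| ≤ π → |y'| ≤ τ →
      ‖ker N (x' + y' * Complex.I) (x + y * Complex.I)‖ ≤
        Real.exp (N * ((sg 1 1).re + 1 / 100 + ε))

/-- EK/9 -/
def S_KFR : Prop := POT → THS → KUP → KFR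

/-! ### The functions of the recursion -/

/-- the analytic properties of the potential `F` of `t` children -/
structure AN (t : ℕ) (F : ℂ → ℂ) : Prop where
  Fan : DifferentiableOn ℂ F DD
  Fev : ∀ ψ ∈ DD, F (-ψ) = F ψ
  pos : 0 ≤ (F 0).re
  mul : ∀ ψ ∈ D1, ‖deriv F ψ + t * ψ / (2 * π)‖ ≤ t / 20 * ‖ψ‖ / (2 * π)
  sec : ∀ ψ ∈ D1, ‖deriv (deriv F) ψ + t / (2 * π)‖ ≤ t / 10 / (2 * π)
  neg : ∀ ψ ∈ DD, (deriv (deriv F) ψ).re ≤ 0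

/-- the tangent plane inequalities -/
structure TP (t : ℕ) (F : ℂ → ℂ) : Prop where
  tp : ∀ z ∈ D0, ∀ w ∈ PP z, (F w).re ≤ (F z).re + tg z (deriv F z) w
  tps : 1 ≤ t → ∀ z ∈ D0, ∀ w ∈ PP z, w ≠ z → (F w).re < (F z).re + tg z (deriv F z) w
  tpc : ∀ z ∈ D0, ∀ w : ℂ, CO w → (F w).re + t / 50 ≤ (F z).re + tg z (deriv F z) w

/-- the functions of the recursion: `X` is the product of `t` children -/
structure PE (t : ℕ) (X : ℕ → ℂ → ℂ) (F : ℂ → ℂ) : Prop where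
  an : ∀ N, Differentiable ℂ (X N)
  ev : ∀ N ψ, X N (-ψ) = X N ψ
  zero : t = 0 → (∀ N ψ, X N ψ = 1) ∧ ∀ ψ, F ψ = 0
  ana : AN t F
  tpl : TP t F
  mw : ∀ V ⊆ DD, IsCompact V → MW X F V
  far : ∀ ε : ℝ, 0 < ε → ∃ τ : ℝ, 0 < τ ∧ ∀ᶠ N : ℕ in atTop, ∀ x y : ℝ, 1 ≤ |x| → |x| ≤ π →
    |y| ≤ τ → ‖X N (x + y * Complex.I)‖ ≤ Real.exp (N * ((F 1).re + t / 100 + ε))

/-- the condition on a vertex without circle with `n` neighbours and weight `a` -/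
def LG (n : ℕ) (a : ℤ) : Prop := 16 ≤ |a| ∨ 32 ≤ n

/-- the critical points of a child: `F` is the potential of its children, `F'` the new potential -/
structure CRD (t : ℕ) (a : ℤ) (F F' zs : ℂ → ℂ) : Prop where
  zan : DifferentiableOn ℂ zs DD
  mem : ∀ ψ ∈ DD, zs ψ ∈ D0 ∧ 0 < (zs ψ).im
  crit : ∀ ψ ∈ DD, Complex.I * a * zs ψ / (2 * π) + Complex.I + deriv F (zs ψ) +
    s1 (zs ψ) ψ = 0
  val : ∀ ψ ∈ DD, F' ψ = qq a F (zs ψ) + sg (zs ψ) ψ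
  der : ∀ ψ ∈ DD, HasDerivAt F' (s2 (zs ψ) ψ) ψ

/-- EK/10: critical points.  (1) a child, (2) the root -/
def S_CRT : Prop := POT → HES → MUL →
  (∀ (t : ℕ) (F : ℂ → ℂ) (a : ℤ), AN t F → LG (t + 1) a →
    ∃ F' zs : ℂ → ℂ, CRD t a F F' zs ∧ AN 1 F') ∧
  ∀ (t : ℕ) (F : ℂ → ℂ) (a : ℤ), 1 ≤ t → AN t F → LG t a →
    ∃ z : ℂ, z ∈ D0 ∧ 0 < z.im ∧ Complex.I * a * z / (2 * π) + Complex.I + deriv F z = 0

/-- EK/11: comparison of two paths -/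
def S_MM : Prop := ∀ (h : ℂ → ℂ) (z z' : ℂ), DifferentiableOn ℂ h DD → z ∈ D0 → 0 < z.im →
  z' ∈ D0 → deriv h z = 0 → (deriv (deriv h) z).re < 0 →
  (∀ w ∈ PP z, w ≠ z → (h w).re < (h z).re) → ∃ w ∈ PP z', (h z).re ≤ (h w).re

/-- EK/12: the tangent plane inequality of a child -/
def S_TPN : Prop := POT → HES → EDG → ∀ (t : ℕ) (a : ℤ) (F F' zs : ℂ → ℂ), AN t F → TP t F →
  CRD t a F F' zs → TP 1 F'

/-- EK/13: the integral at a child without circle -/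
def S_STP : Prop := POT → HES → EDG → KMW → KFR → ∀ (t : ℕ) (a : ℤ) (X : ℕ → ℂ → ℂ)
  (F F' zs : ℂ → ℂ), PE t X F → CRD t a F F' zs → AN 1 F' → TP 1 F' → PE 1 (stpb false a X) F'

/-- EK/14: a child with a circle -/
def S_CIR : Prop := POT → HES → MUL → EDG → KMW → KFR → ∀ (t : ℕ) (a : ℤ) (X : ℕ → ℂ → ℂ)
  (F : ℂ → ℂ), PE t X F → PE 1 (stpb true a X) (fun ψ => F 0 + π * Complex.I + sg 0 ψ)

/-- EK/15: the last step -/
def S_RTE : Prop := (∀ (t : ℕ) (a : ℤ) (X : ℕ → ℂ → ℂ) (F : ℂ → ℂ) (z : ℂ), 1 ≤ t → PE t X F →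
    z ∈ D0 → 0 < z.im → Complex.I * a * z / (2 * π) + Complex.I + deriv F z = 0 →
    Tendsto (fun N : ℕ => Real.log ‖upp (1 / N) fun ψ => Eb false a N ψ * X N ψ * kr N ψ‖ / N)
      atTop (𝓝 (qq a F z).re)) ∧
  ∀ (t : ℕ) (a : ℤ) (X : ℕ → ℂ → ℂ) (F : ℂ → ℂ), 1 ≤ t → PE t X F →
    Tendsto (fun N : ℕ => Real.log ‖upp (1 / N) fun ψ => Eb true a N ψ * X N ψ * kr N ψ‖ / N)
      atTop (𝓝 (F 0).re)

/-- EK/16: products -/
def S_PRE : Prop := PE 0 (fun _ _ => 1) (fun _ => 0) ∧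
  ∀ (t : ℕ) (X Y : ℕ → ℂ → ℂ) (F G : ℂ → ℂ), PE t X F → PE 1 Y G →
    PE (t + 1) (fun N ψ => X N ψ * Y N ψ) (fun ψ => F ψ + G ψ)

/-! ### Geometry -/

/-- EK/17: the geometric meaning of the potential -/
def EFE : Prop := ∀ ψ ∈ D1, ∀ φ ∈ D1, EFW sg ψ φ (dst ψ φ)

/-- EK/17 -/
def S_EFE : Prop := POT → EFE

/-- the condition at a vertex; `G` is the derivative of the sum of the potentials of the edges -/
def VE (b : Bool) (a : ℤ) (z G : ℂ) : Prop := (b = true → z = 0) ∧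
  (b = false → z ∈ D0 ∧ 0 < z.im ∧ Complex.I * a * z / (2 * π) + Complex.I + G = 0)

/-- the conditions at the vertices other than the root -/
def CE : PB → Prop
  | .vx _ _ _ => True
  | .br t c => CE t ∧ CE c ∧
      VE c.bl c.wt c.rz (c.gs sg + deriv (fun w => sg w t.rz) c.rz)

/-- EK/18: the value at a critical configuration is the maximal volume of the angle structures -/
def S_GEOE : Prop := EFE → ∀ p : PB, CE p → VE p.bl p.wt p.rz (p.gs sg) → 1 ≤ p.nc →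
  IsGreatest {W : ℝ | ∃ y : AB, y.shape = p.shape ∧ y.IsAng ∧ y.vol = W}
    (2 * π * (vt p.bl p.wt p.rz + p.vl sg).re)

/-! ### The main statement -/

/-- the vertices other than the root are large -/
def OkE : Tb → Prop
  | .vx _ _ => True
  | .br t c => OkE t ∧ OkE c ∧ (c.bl = false → LG (c.nc + 1) c.wt)

/-- the growth rate is the maximal volume of the angle structures -/
def S_FINE : Prop := ∀ t : Tb, OkE t → (t.bl = false → LG t.nc t.wt) → 1 ≤ t.nc → ∃ V : ℝ,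
  IsGreatest {W : ℝ | ∃ y : AB, y.shape = t ∧ y.IsAng ∧ y.vol = W} V ∧
  Tendsto (fun N : ℕ => 2 * π * (Real.log ‖JT t N‖ / N)) atTop (𝓝 V)

end Pool.Agent.N561.EK
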