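import Pool.Agent.N561.V.Arb

/-!
# Arborescent links with explicit twist bounds: the definitions of the hand-ins

Weighted planar trees as in `Pool.Agent.TH563.UV.Arb`.
-/

set_option autoImplicit false

namespace Pool.Agent.N561.ArbK

open Finset Filter Topology
open Pool.Agent.TH563.UV.Arb

/-- A vertex with `n` neighbours and weight `a`, which carries a crossing circle if `b` is true: it
carries a crossing circle, or it has at least `16` crossings, or at least `32` neighbours. -/
def Twisted (b : Bool) (n : ℕ) (a : ℤ) : Prop := b = true ∨ 16 ≤ |a| ∨ 32 ≤ n

/-- The condition `Twisted` at all vertices other than the root. -/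
def TwistedBelow : Tree → Prop
  | .single _ _ => True
  | .join t c => TwistedBelow t ∧ TwistedBelow c ∧ Twisted c.circle (c.children + 1) c.weight

/-- Every vertex carries a crossing circle, or has weight at least `16` in absolute value, or at
least `32` neighbours. -/
def AllTwisted (t : Tree) : Prop := TwistedBelow t ∧ Twisted t.circle t.children t.weight

end Pool.Agent.N561.ArbK
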