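import Pool.Agent.N561.EK.Stm
import Pool.Agent.N561.V.KidL
import Pool.Agent.TH563.V.Ind

/-!
# Explicit constants: the induction over the tree
-/

set_option autoImplicit false

namespace Pool.Agent.N561.EK

open Finset Filter Topology Metric
open Pool.Agent.W711.HT hiding XX
open Pool.Agent.TH563.UV
open Pool.Agent.TH563.V
open Pool.Agent.TH563.Z (shape_nc)
open Pool.Agent.N561
open scoped Real

/-- configurations of a product -/
def CfE (t : Tb) (F : ℂ → ℂ) (ψ : ℂ) : Prop :=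
  ∃ p : PB, p.shape = t ∧ p.rz = ψ ∧ CE p ∧ F ψ = p.vl sg ∧ HasDerivAt F (p.gs sg) ψ

/-- configurations of a child -/
def CfF (c : Tb) (F' : ℂ → ℂ) (ψ : ℂ) : Prop :=
  ∃ q : PB, q.shape = c ∧ CE q ∧
    VE q.bl q.wt q.rz (q.gs sg + deriv (fun w => sg w ψ) q.rz) ∧
    F' ψ = vt q.bl q.wt q.rz + q.vl sg + sg q.rz ψ ∧
    HasDerivAt F' (deriv (fun w => sg q.rz w) ψ) ψ

lemma cfe_succ {t c : Tb} {F F' : ℂ → ℂ} {ψ : ℂ} (h1 : CfE t F ψ) (h2 : CfF c F' ψ) :
    CfE (.br t c) (fun ψ => F ψ + F' ψ) ψ := by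
  obtain ⟨p, p1, p2, p3, p4, p5⟩ := h1
  obtain ⟨q, q1, q2, q3, q6, q7⟩ := h2
  refine ⟨.br p q, by simp [PB.shape, p1, q1], p2, ⟨p3, q2, ?_⟩, ?_, ?_⟩
  · rw [p2]
    exact q3
  · show F ψ + F' ψ = p.vl sg + (vt q.bl q.wt q.rz + q.vl sg + sg q.rz p.rz)
    rw [p2, p4, q6]
  · show HasDerivAt (fun ψ => F ψ + F' ψ) (p.gs sg + deriv (fun w => sg q.rz w) p.rz) ψ
    rw [p2]
    exact p5.add q7

lemma cff_of {c : Tb} {F F' : ℂ → ℂ} {ψ z : ℂ} (h : CfE c F z) (h1 : c.bl = true → z = 0)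
    (h2 : c.bl = false → z ∈ D0 ∧ 0 < z.im ∧ Complex.I * c.wt * z / (2 * π) + Complex.I +
      deriv F z + deriv (fun w => sg w ψ) z = 0)
    (h3 : F' ψ = vt c.bl c.wt z + F z + sg z ψ)
    (h4 : HasDerivAt F' (deriv (fun w => sg z w) ψ) ψ) : CfF c F' ψ := by
  obtain ⟨q, q1, q2, q3, q4, q5⟩ := h
  have ew : q.wt = c.wt := by rw [← pb_wt q, q1]
  have eb : q.bl = c.bl := by rw [← pb_bl q, q1]
  refine ⟨q, q1, q3, ⟨?_, ?_⟩, ?_, ?_⟩
  · intro hb
    rw [q2]
    exact h1 (eb ▸ hb)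
  · intro hb
    obtain ⟨a1, a2, a3⟩ := h2 (eb ▸ hb)
    rw [q2]
    refine ⟨a1, a2, ?_⟩
    rw [ew, ← q5.deriv, ← add_assoc]
    exact a3
  · rw [q2, ew, eb, ← q4, h3]
  · rw [q2]
    exact h4

lemma zero_D0 : (0 : ℂ) ∈ D0 := ⟨by norm_num, by norm_num, Or.inl rfl⟩

lemma D0_DD {z : ℂ} (h : z ∈ D0) : z ∈ DD := by
  obtain ⟨h1, h2, h3⟩ := h
  refine ⟨?_, ?_⟩
  · have := Complex.abs_re_le_norm z
    linarith
  · rcases h3 with h3 | h3
    · rw [h3]; norm_num
    · rw [abs_lt]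
      constructor <;> linarith

lemma zero_DD : (0 : ℂ) ∈ DD := D0_DD zero_D0

lemma neg_DD {z : ℂ} (h : z ∈ DD) : -z ∈ DD := by
  obtain ⟨h1, h2⟩ := h
  exact ⟨by simpa using h1, by simpa using h2⟩

lemma isOpen_DD : IsOpen DD := by
  have h1 : IsOpen {w : ℂ | |w.re| < 21 / 20} :=
    isOpen_lt (Complex.continuous_re.abs) continuous_const
  have h2 : IsOpen {w : ℂ | |w.im| < 1 / 4} :=
    isOpen_lt (Complex.continuous_im.abs) continuous_const
  exact h1.inter h2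

/-- everything that is needed -/
structure ALL : Prop where
  pot : POT
  hes : HES
  mul : MUL
  edg : EDG
  kmw : KMW
  kfr : KFR
  crt : S_CRT
  tpn : S_TPN
  stp : S_STP
  cir : S_CIR
  rte : S_RTE
  pre : S_PRE
  efe : EFE
  geo : S_GEOE

theorem all_of (h1 : S_POT) (h2 : S_HES) (h3 : S_MUL) (h4 : S_COR) (h5 : S_EDG) (h6 : S_THS)
    (h7 : S_K0M) (h8 : S_KUP) (h9 : S_KFR) (h10 : S_CRT) (h12 : S_TPN) (h13 : S_STP)
    (h14 : S_CIR) (h15 : S_RTE) (h16 : S_PRE) (h17 : S_EFE) (h18 : S_GEOE) : ALL := by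
  have a1 : POT := h1
  have a2 : HES := h2
  have a3 : MUL := h3 a1 a2
  have a4 : COR := h4 a1 a3
  have a6 : THS := h6 a1
  have a7 : K0M := h7 a1 a6
  exact ⟨a1, a2, a3, h5 a1 a2 a4, h8.2 a1 a3 a7, h9 a1 a6 h8.1, h10, h12, h13, h14, h15, h16,
    h17 a1, h18⟩

lemma sg0_diff (h : POT) {ψ : ℂ} (hψ : ψ ∈ DD) :
    HasDerivAt (fun w => sg 0 w) (deriv (fun w => sg 0 w) ψ) ψ :=
  (h.d2 0 zero_DD ψ hψ).differentiableAt.hasDerivAt

theorem ind (A : ALL) (t : Tb) (hS : OkE t) :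
    ∃ F : ℂ → ℂ, PE t.nc (XX t) F ∧ ∀ ψ ∈ DD, CfE t F ψ := by
  induction t with
  | vx b a =>
    refine ⟨fun _ => 0, A.pre.1, fun ψ _ => ⟨.vx b a ψ, rfl, rfl, trivial, rfl, ?_⟩⟩
    simpa [PB.gs] using hasDerivAt_const ψ (0 : ℂ)
  | br t c iht ihc =>
    obtain ⟨ht, hc, hl⟩ := hS
    obtain ⟨F, hF, hFc⟩ := iht ht
    obtain ⟨G, hG, hGc⟩ := ihc hc
    cases hb : c.bl with
    | false =>
      obtain ⟨F', zs, hcr, han⟩ := (A.crt A.pot A.hes A.mul).1 c.nc G c.wt hG.ana (hl hb)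
      have htp := A.tpn A.pot A.hes A.edg c.nc c.wt G F' zs hG.ana hG.tpl hcr
      have hpe := A.stp A.pot A.hes A.edg A.kmw A.kfr c.nc c.wt (XX c) G F' zs hG hcr han htp
      refine ⟨fun ψ => F ψ + F' ψ, ?_, ?_⟩
      · have := A.pre.2 t.nc (XX t) (stpb false c.wt (XX c)) F F' hF hpe
        have e : XX (.br t c) = fun N ψ => XX t N ψ * stpb false c.wt (XX c) N ψ := by
          funext N ψ
          show XX t N ψ * stpb c.bl c.wt (XX c) N ψ = _
          rw [hb]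
        rw [e]
        exact this
      · intro ψ hψ
        obtain ⟨m1, m2⟩ := hcr.mem ψ hψ
        refine cfe_succ (hFc ψ hψ) (cff_of (hGc (zs ψ) (D0_DD m1)) ?_ ?_ ?_ ?_)
        · intro h
          rw [hb] at h
          exact absurd h (by simp)
        · intro _
          refine ⟨m1, m2, ?_⟩
          exact hcr.crit ψ hψ
        · rw [hcr.val ψ hψ, hb]
          simp [qq, vt]
        · exact hcr.der ψ hψ
    | true =>
      have hpe := A.cir A.pot A.hes A.mul A.edg A.kmw A.kfr c.nc c.wt (XX c) G hG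
      refine ⟨fun ψ => F ψ + (G 0 + π * Complex.I + sg 0 ψ), ?_, ?_⟩
      · have := A.pre.2 t.nc (XX t) (stpb true c.wt (XX c)) F _ hF hpe
        have e : XX (.br t c) = fun N ψ => XX t N ψ * stpb true c.wt (XX c) N ψ := by
          funext N ψ
          show XX t N ψ * stpb c.bl c.wt (XX c) N ψ = _
          rw [hb]
        rw [e]
        exact this
      · intro ψ hψ
        refine cfe_succ (F' := fun ψ => G 0 + π * Complex.I + sg 0 ψ) (hFc ψ hψ)
          (cff_of (hGc 0 zero_DD) (fun _ => rfl) ?_ ?_ ?_)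
        · intro h
          rw [hb] at h
          exact absurd h (by simp)
        · show G 0 + π * Complex.I + sg 0 ψ = vt c.bl c.wt 0 + G 0 + sg 0 ψ
          rw [hb]
          simp [vt]
          ring
        · exact (sg0_diff A.pot hψ).const_add _

theorem fine_of (A : ALL) : S_FINE := by
  intro t hS hR hn
  obtain ⟨F, hF, hFc⟩ := ind A t hS
  cases hb : t.bl with
  | false =>
    obtain ⟨z, z1, z2, z3⟩ := (A.crt A.pot A.hes A.mul).2 t.nc F t.wt hn hF.ana (hR hb)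
    have hT := A.rte.1 t.nc t.wt (XX t) F z hn hF z1 z2 z3
    obtain ⟨p, p1, p2, p3, p4, p5⟩ := hFc z (D0_DD z1)
    have ew : p.wt = t.wt := by rw [← pb_wt p, p1]
    have eb : p.bl = t.bl := by rw [← pb_bl p, p1]
    have en : p.nc = t.nc := by rw [← p1, shape_nc]
    have hV : VE p.bl p.wt p.rz (p.gs sg) := by
      refine ⟨?_, ?_⟩
      · intro h
        rw [eb, hb] at h
        exact absurd h (by simp)
      · intro _
        rw [p2, ew]
        refine ⟨z1, z2, ?_⟩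
        rw [← p5.deriv]
        exact z3
    have hG := A.geo A.efe p p3 hV (by rw [en]; exact hn)
    refine ⟨_, by rw [p1] at hG; exact hG, ?_⟩
    have e : (vt p.bl p.wt p.rz + p.vl sg).re = (qq t.wt F z).re := by
      rw [p2, ew, eb, hb, ← p4]
      simp [qq, vt]
    rw [e]
    have e2 : ∀ N : ℕ, JT t N = upp (1 / N) fun ψ => Eb false t.wt N ψ * XX t N ψ * kr N ψ := by
      intro N
      unfold JT
      rw [hb]
    simp only [e2]
    exact hT.const_mul (2 * π)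
  | true =>
    have hT := A.rte.2 t.nc t.wt (XX t) F hn hF
    obtain ⟨p, p1, p2, p3, p4, p5⟩ := hFc 0 zero_DD
    have ew : p.wt = t.wt := by rw [← pb_wt p, p1]
    have eb : p.bl = t.bl := by rw [← pb_bl p, p1]
    have en : p.nc = t.nc := by rw [← p1, shape_nc]
    have hV : VE p.bl p.wt p.rz (p.gs sg) := by
      refine ⟨fun _ => p2, ?_⟩
      intro h
      rw [eb, hb] at h
      exact absurd h (by simp)
    have hG := A.geo A.efe p p3 hV (by rw [en]; exact hn)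
    refine ⟨_, by rw [p1] at hG; exact hG, ?_⟩
    have e : (vt p.bl p.wt p.rz + p.vl sg).re = (F 0).re := by
      rw [p2, ew, eb, hb, ← p4]
      simp [vt]
    rw [e]
    have e2 : ∀ N : ℕ, JT t N = upp (1 / N) fun ψ => Eb true t.wt N ψ * XX t N ψ * kr N ψ := by
      intro N
      unfold JT
      rw [hb]
    simp only [e2]
    exact hT.const_mul (2 * π)

end Pool.Agent.N561.EK
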