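import Pool.Agent.N561.EK.ArbE
import Pool.Agent.N561.EK.Main

/-!
# Arborescent links with explicit twist bounds: the growth rate
-/

set_option autoImplicit false

namespace Pool.Agent.N561.ArbK

open Finset Filter Topology
open Pool.Agent.TH563.UV.Arb
open Pool.Agent.TH563.Z.Arb
open Pool.Agent.TH563.UV (Tb JT ngb)
open Pool.Agent.N561 (norm_JT_ngb)
open Pool.Agent.N561.EK (LG OkE S_FINE)
open scoped Real

lemma lg_of {b : Bool} {n : ℕ} {a : ℤ} (h : Twisted b n a) (hb : b = false) : LG n a := by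
  rcases h with h | h | h
  · rw [hb] at h
    exact absurd h (by simp)
  · exact Or.inl h
  · exact Or.inr h

lemma below_ok (t : Tree) (h : TwistedBelow t) : OkE (toTb t) := by
  induction t with
  | single b a => trivial
  | join t c iht ihc =>
    obtain ⟨h1, h2, h3⟩ := h
    refine ⟨iht h1, ihc h2, ?_⟩
    rw [bl_to, nc_to, wt_to]
    exact lg_of h3

/-- from the iterated integrals to the Kashaev invariants -/
theorem main (hF : S_FINE) : ∀ s : Tree, 1 ≤ s.children → AllTwisted s →
    ∃ V : ℝ, IsGreatest {W : ℝ | ∃ y : AngleTree, y.tree = s ∧ IsAngle y ∧ vol y = W} V ∧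
      ∀ t : Tree, (t = s ∨ t = s.mirror) → (∀ N : ℕ, ContinuousAt (jones t N) (root N)) ∧
      ∀ e f : ℤ,
        Tendsto (fun N : ℕ => 2 * Real.pi * (Real.log ‖kashaev e f t N‖ / N)) atTop (𝓝 V) := by
  intro s hc hs
  obtain ⟨V, h1, h2⟩ := hF (toTb s) (below_ok s hs.1)
    (by rw [bl_to, nc_to, wt_to]; exact lg_of hs.2) (by rw [nc_to]; exact hc)
  refine ⟨V, ?_, fun t hts => ⟨fun N => ?_, fun e f => ?_⟩⟩
  · rw [volume_eq]
    exact h1
  · have hj : ∀ N, jones t N = Pool.Agent.TH563.UV.jt (toTb t) N := fun N => jones_to t N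
    rw [hj]
    exact Pool.Agent.TH639.J28.cnt _ _
  · have h3 : Tendsto (fun N : ℕ => 2 * π * (Real.log ‖JT (toTb t) N‖ / N)) atTop (𝓝 V) := by
      rcases hts with rfl | rfl
      · exact h2
      · refine h2.congr fun N => ?_
        rw [mirror_toTb, norm_JT_ngb]
    have h4 := Pool.Agent.TH563.Z.log_jt (toTb t) h3
    have hj : ∀ N, jones t N = Pool.Agent.TH563.UV.jt (toTb t) N := fun N => jones_to t N
    have hroot : ∀ N : ℕ, root N = Pool.Agent.W711.HT.vN N := fun N => rfl
    refine h4.congr fun N => ?_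
    rw [norm_kashaev, hj, hroot]

end Pool.Agent.N561.ArbK
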