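import Pool.Agent.N561.EK.Stm
import Pool.Agent.N561.AX.Stm
import Pool.Agent.N561.AX.StmG

/-!
# Explicit constants: expansions to all orders and the complex volume, statements
-/

set_option autoImplicit false

namespace Pool.Agent.N561.EK

open Finset Filter Topology Metric
open Pool.Agent.W711.HT hiding XX
open Pool.Agent.TH563.UV
open Pool.Agent.TH563.V
open Pool.Agent.TH563.UV.Arb
open Pool.Agent.TH563.CV
open Pool.Agent.TH563.CU (Unq)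
open Pool.Agent.N561
open Pool.Agent.W719.AX (UX GX EXY)
open scoped Real

/-- the expansion of the kernel, on compact subsets of `DD × DD` -/
structure KXF (Ak : ℕ → ℂ × ℂ → ℂ) : Prop where
  ux : ∀ V ⊆ DD, IsCompact V → UX (fun (N : ℕ) (x : ℂ × ℂ) => ((Real.sqrt N) ^ 3 : ℝ) *
    Complex.exp (-(N * sg x.1 x.2)) * ker N x.1 x.2) Ak (V ×ˢ V)
  d1 : ∀ n, ∀ p ∈ DD, DifferentiableOn ℂ (fun w => Ak n (w, p)) DD
  d2 : ∀ n, ∀ p ∈ DD, DifferentiableOn ℂ (fun w => Ak n (p, w)) DD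
  nz : ∀ x ∈ DD ×ˢ DD, Ak 0 x ≠ 0

/-- EKX/1: the expansion of the kernel -/
def S_KXF : Prop := POT → KMW → ∃ Ak : ℕ → ℂ × ℂ → ℂ, KXF Ak

/-- the expansion of the functions of the recursion, on compact subsets of `DD` -/
structure GXD (m : ℕ) (Y : ℕ → ℂ → ℂ) (F : ℂ → ℂ) (A : ℕ → ℂ → ℂ) : Prop where
  ux : ∀ V ⊆ DD, IsCompact V → UX (fun N z => (N : ℂ) ^ (2 * m) * (-1) ^ (N * m) *
    Complex.exp (-(N * F z)) * Y N z) A V
  an : ∀ k, DifferentiableOn ℂ (A k) DD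
  nz : ∀ z ∈ DD, A 0 z ≠ 0

/-- EKX/2: products -/
def S_PRX : Prop := (∃ A : ℕ → ℂ → ℂ, GXD 0 (fun _ _ => 1) (fun _ => 0) A) ∧
  ∀ (m m' : ℕ) (X Y : ℕ → ℂ → ℂ) (F G : ℂ → ℂ) (A B : ℕ → ℂ → ℂ), GXD m X F A → GXD m' Y G B →
    ∃ C : ℕ → ℂ → ℂ, GXD (m + m') (fun N ψ => X N ψ * Y N ψ) (fun ψ => F ψ + G ψ) C

/-- EKX/3: a child without circle -/
def S_STX : Prop := POT → HES → EDG → KMW → KFR → ∀ Ak : ℕ → ℂ × ℂ → ℂ, KXF Ak →
  ∀ (t m : ℕ) (a : ℤ) (X : ℕ → ℂ → ℂ) (F F' zs : ℂ → ℂ) (A : ℕ → ℂ → ℂ), PE t X F →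
  CRD t a F F' zs → AN 1 F' → TP 1 F' → GXD m X F A →
    ∃ A' : ℕ → ℂ → ℂ, GXD (m + 1) (stpb false a X) F' A'

/-- EKX/4: a child with a circle -/
def S_CIX : Prop := POT → HES → MUL → EDG → KMW → KFR → ∀ Ak : ℕ → ℂ × ℂ → ℂ, KXF Ak →
  ∀ (t m : ℕ) (a : ℤ) (X : ℕ → ℂ → ℂ) (F : ℂ → ℂ) (A : ℕ → ℂ → ℂ), PE t X F → GXD m X F A →
    ∃ A' : ℕ → ℂ → ℂ, GXD (m + 1) (stpb true a X) (fun ψ => F 0 + π * Complex.I + sg 0 ψ) A'

/-- EKX/5: the last step -/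
def S_RTXE : Prop := (∀ (t m : ℕ) (a : ℤ) (X : ℕ → ℂ → ℂ) (F : ℂ → ℂ) (z : ℂ)
    (A : ℕ → ℂ → ℂ), 1 ≤ t → PE t X F → GXD m X F A → z ∈ D0 → 0 < z.im →
    Complex.I * a * z / (2 * π) + Complex.I + deriv F z = 0 → ∃ y : ℕ → ℂ, y 0 ≠ 0 ∧
      UX (fun N (_ : Unit) => (N : ℂ) ^ (2 * m) * (Real.sqrt N : ℂ) * (-1) ^ (N * (m + 1)) *
        Complex.exp (-(N * qq a F z)) * upp (1 / N) fun ψ => Eb false a N ψ * X N ψ * kr N ψ)
        (fun k _ => y k) Set.univ) ∧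
  ∀ (t m : ℕ) (a : ℤ) (X : ℕ → ℂ → ℂ) (F : ℂ → ℂ) (A : ℕ → ℂ → ℂ), 1 ≤ t → PE t X F →
    GXD m X F A → ∃ y : ℕ → ℂ, y 0 ≠ 0 ∧
      UX (fun N (_ : Unit) => (N : ℂ) ^ (2 * m) * (Real.sqrt N : ℂ) * (-1) ^ (N * (m + 1)) *
        Complex.exp (-(N * (F 0 + π * Complex.I))) *
        upp (1 / N) fun ψ => Eb true a N ψ * X N ψ * kr N ψ)
        (fun k _ => y k) Set.univ

/-- the complex volume of an edge -/
def GPE : Prop := ∀ ψ ∈ D1, ∀ φ ∈ D1, GP ψ φ (2 * π * dst ψ φ) (sg ψ φ) = -(π : ℂ) ^ 2 / 2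

/-- EKX/6 -/
def S_GPE : Prop := POT → EFE → GPE

/-- EKX/7: the value at a critical configuration is the maximal volume of the angle structures, and
the complex volume, which does not depend on the flattening -/
def S_GEY : Prop := EFE → GPE → ∀ p : PB, CE p → VE p.bl p.wt p.rz (p.gs sg) → 1 ≤ p.nc →
  IsGreatest {W : ℝ | ∃ y : AB, y.shape = p.shape ∧ y.IsAng ∧ y.vol = W}
    (2 * π * (vt p.bl p.wt p.rz + p.vl sg).re) ∧
  ∀ t : Tree, p.shape = toTb t →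
    IsComplexVolume t (2 * π * (vt p.bl p.wt p.rz + p.vl sg).re)
      (vt p.bl p.wt p.rz + p.vl sg + Complex.I * π - Complex.I * π * (toTb t).ws / 4) ∧
    Unq t (2 * π * (vt p.bl p.wt p.rz + p.vl sg).re)

/-- the expansion of the invariants; the growth rate is the maximal volume and the exponent is the
complex volume, which is unique -/
def S_FINY : Prop := ∀ t : Tb, OkE t → (t.bl = false → LG t.nc t.wt) → 1 ≤ t.nc →
  ∃ (V : ℝ) (v : ℂ) (y : ℕ → ℂ),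
    IsGreatest {W : ℝ | ∃ y : AB, y.shape = t ∧ y.IsAng ∧ y.vol = W} V ∧
    2 * π * v.re = V ∧ y 0 ≠ 0 ∧ EXY (fun N : ℕ => jt t N (vN N)) v y ∧
    ∀ t' : Tree, t = toTb t' → IsComplexVolume t' V v ∧ Unq t' V

end Pool.Agent.N561.EK
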