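import Pool.Agent.N561.EK.Main
import Pool.Agent.N561.EK.StmX
import Pool.Agent.N561.AX.MainX

/-!
# Explicit constants: expansions and the complex volume, the induction over the tree
-/

set_option autoImplicit false

namespace Pool.Agent.N561.EK

open Finset Filter Topology Metric
open Pool.Agent.W711.HT hiding XX
open Pool.Agent.TH563.UV
open Pool.Agent.TH563.V
open Pool.Agent.TH563.UV.Arb
open Pool.Agent.TH563.CV
open Pool.Agent.TH563.CU (Unq)
open Pool.Agent.TH563.Z (shape_nc exy_of_ux re_shift)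
open Pool.Agent.N561
open Pool.Agent.W719.AX (UX GX EXY)
open scoped Real

/-- everything that is needed in addition -/
structure ALX (Ak : ℕ → ℂ × ℂ → ℂ) : Prop where
  kxf : KXF Ak
  prx : S_PRX
  stx : S_STX
  cix : S_CIX
  rtx : S_RTXE
  gpe : GPE
  gey : S_GEY

theorem indx (A : ALL) {Ak : ℕ → ℂ × ℂ → ℂ} (B : ALX Ak) (t : Tb) (hS : OkE t) :
    ∃ (F : ℂ → ℂ) (C : ℕ → ℂ → ℂ), PE t.nc (XX t) F ∧ GXD t.ne (XX t) F C ∧
      ∀ ψ ∈ DD, CfE t F ψ := by
  induction t with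
  | vx b a =>
    obtain ⟨C, hC⟩ := B.prx.1
    refine ⟨fun _ => 0, C, A.pre.1, hC, fun ψ _ => ⟨.vx b a ψ, rfl, rfl, trivial, rfl, ?_⟩⟩
    simpa [PB.gs] using hasDerivAt_const ψ (0 : ℂ)
  | br t c iht ihc =>
    obtain ⟨ht, hc, hl⟩ := hS
    obtain ⟨F, CF, hF, hF', hFc⟩ := iht ht
    obtain ⟨G, CG, hG, hG', hGc⟩ := ihc hc
    have en : (Tb.br t c).ne = t.ne + (c.ne + 1) := by
      show t.ne + c.ne + 1 = _
      ring
    cases hb : c.bl with
    | false =>
      obtain ⟨F', zs, hcr, han⟩ := (A.crt A.pot A.hes A.mul).1 c.nc G c.wt hG.ana (hl hb)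
      have htp := A.tpn A.pot A.hes A.edg c.nc c.wt G F' zs hG.ana hG.tpl hcr
      have hpe := A.stp A.pot A.hes A.edg A.kmw A.kfr c.nc c.wt (XX c) G F' zs hG hcr han htp
      obtain ⟨A', hA'⟩ := B.stx A.pot A.hes A.edg A.kmw A.kfr Ak B.kxf c.nc c.ne c.wt (XX c) G F'
        zs CG hG hcr han htp hG'
      obtain ⟨C, hC⟩ := B.prx.2 t.ne (c.ne + 1) (XX t) (stpb false c.wt (XX c)) F F' CF A' hF' hA'
      have e : XX (.br t c) = fun N ψ => XX t N ψ * stpb false c.wt (XX c) N ψ := by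
        funext N ψ
        show XX t N ψ * stpb c.bl c.wt (XX c) N ψ = _
        rw [hb]
      refine ⟨fun ψ => F ψ + F' ψ, C, ?_, ?_, ?_⟩
      · rw [e]
        exact A.pre.2 t.nc (XX t) (stpb false c.wt (XX c)) F F' hF hpe
      · rw [e, en]
        exact hC
      · intro ψ hψ
        obtain ⟨m1, m2⟩ := hcr.mem ψ hψ
        refine cfe_succ (hFc ψ hψ) (cff_of (hGc (zs ψ) (D0_DD m1)) ?_ ?_ ?_ ?_)
        · intro h
          rw [hb] at h
          exact absurd h (by simp)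
        · intro _
          refine ⟨m1, m2, ?_⟩
          exact hcr.crit ψ hψ
        · rw [hcr.val ψ hψ, hb]
          simp [qq, vt]
        · exact hcr.der ψ hψ
    | true =>
      have hpe := A.cir A.pot A.hes A.mul A.edg A.kmw A.kfr c.nc c.wt (XX c) G hG
      obtain ⟨A', hA'⟩ := B.cix A.pot A.hes A.mul A.edg A.kmw A.kfr Ak B.kxf c.nc c.ne c.wt (XX c)
        G CG hG hG'
      obtain ⟨C, hC⟩ := B.prx.2 t.ne (c.ne + 1) (XX t) (stpb true c.wt (XX c)) F _ CF A' hF' hA'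
      have e : XX (.br t c) = fun N ψ => XX t N ψ * stpb true c.wt (XX c) N ψ := by
        funext N ψ
        show XX t N ψ * stpb c.bl c.wt (XX c) N ψ = _
        rw [hb]
      refine ⟨fun ψ => F ψ + (G 0 + π * Complex.I + sg 0 ψ), C, ?_, ?_, ?_⟩
      · rw [e]
        exact A.pre.2 t.nc (XX t) (stpb true c.wt (XX c)) F _ hF hpe
      · rw [e, en]
        exact hC
      · intro ψ hψ
        refine cfe_succ (F' := fun ψ => G 0 + π * Complex.I + sg 0 ψ) (hFc ψ hψ)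
          (cff_of (hGc 0 zero_DD) (fun _ => rfl) ?_ ?_ ?_)
        · intro h
          rw [hb] at h
          exact absurd h (by simp)
        · show G 0 + π * Complex.I + sg 0 ψ = vt c.bl c.wt 0 + G 0 + sg 0 ψ
          rw [hb]
          simp [vt]
          ring
        · exact (sg0_diff A.pot hψ).const_add _

theorem finy_of (A : ALL) {Ak : ℕ → ℂ × ℂ → ℂ} (B : ALX Ak) : S_FINY := by
  intro t hS hR hnc
  obtain ⟨F, C, hF, hC, hFc⟩ := indx A B t hS
  have hfin : ∀ (p : PB) (v : ℂ) (y' : ℕ → ℂ), p.shape = t → CE p →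
      VE p.bl p.wt p.rz (p.gs sg) → vt p.bl p.wt p.rz + p.vl sg = v → y' 0 ≠ 0 →
      UX (fun N (_ : Unit) => (N : ℂ) ^ (2 * t.ne) * (Real.sqrt N : ℂ) *
        (-1) ^ (N * (t.ne + 1)) * Complex.exp (-(N * v)) * JT t N) (fun k _ => y' k) Set.univ →
      ∃ (V : ℝ) (v : ℂ) (y : ℕ → ℂ),
      IsGreatest {W : ℝ | ∃ y : AB, y.shape = t ∧ y.IsAng ∧ y.vol = W} V ∧
      2 * π * v.re = V ∧ y 0 ≠ 0 ∧ EXY (fun N : ℕ => jt t N (vN N)) v y ∧
      ∀ t' : Tree, t = toTb t' → IsComplexVolume t' V v ∧ Unq t' V := by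
    intro p v y' h1 h2 h3 h4 h5 hux
    have hpn : 1 ≤ p.nc := by rw [← shape_nc p, h1]; exact hnc
    obtain ⟨h6, h7⟩ := B.gey A.efe B.gpe p h2 h3 hpn
    rw [h1, h4] at h6
    rw [h4] at h7
    obtain ⟨y, hy, h8⟩ := exy_of_ux t h5 hux
    refine ⟨_, _, y, h6, ?_, hy, h8, fun t' ht' => ?_⟩
    · rw [re_shift]
    · subst ht'
      exact h7 t' h1
  cases hb : t.bl with
  | false =>
    obtain ⟨z, z1, z2, z3⟩ := (A.crt A.pot A.hes A.mul).2 t.nc F t.wt hnc hF.ana (hR hb)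
    obtain ⟨y, y1, y2⟩ := B.rtx.1 t.nc t.ne t.wt (XX t) F z C hnc hF hC z1 z2 z3
    obtain ⟨p, p1, p2, p3, p4, p5⟩ := hFc z (D0_DD z1)
    have ew : p.wt = t.wt := by rw [← pb_wt p, p1]
    have eb : p.bl = t.bl := by rw [← pb_bl p, p1]
    have hV : VE p.bl p.wt p.rz (p.gs sg) := by
      refine ⟨?_, ?_⟩
      · intro h
        rw [eb, hb] at h
        exact absurd h (by simp)
      · intro _
        rw [p2, ew]
        refine ⟨z1, z2, ?_⟩
        rw [← p5.deriv]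
        exact z3
    refine hfin p _ y p1 p3 hV rfl y1 ?_
    have e : vt p.bl p.wt p.rz + p.vl sg = qq t.wt F z := by
      rw [p2, ew, eb, hb, ← p4]
      simp [qq, vt]
    rw [e]
    unfold JT
    rw [hb]
    exact y2
  | true =>
    obtain ⟨y, y1, y2⟩ := B.rtx.2 t.nc t.ne t.wt (XX t) F C hnc hF hC
    obtain ⟨p, p1, p2, p3, p4, p5⟩ := hFc 0 zero_DD
    have ew : p.wt = t.wt := by rw [← pb_wt p, p1]
    have eb : p.bl = t.bl := by rw [← pb_bl p, p1]
    have hV : VE p.bl p.wt p.rz (p.gs sg) := by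
      refine ⟨fun _ => p2, ?_⟩
      intro h
      rw [eb, hb] at h
      exact absurd h (by simp)
    refine hfin p _ y p1 p3 hV rfl y1 ?_
    have e : vt p.bl p.wt p.rz + p.vl sg = F 0 + π * Complex.I := by
      rw [p2, ew, eb, hb, ← p4]
      simp only [vt, if_true]
      ring
    rw [e]
    unfold JT
    rw [hb]
    exact y2

end Pool.Agent.N561.EK
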