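import Pool.Agent.N561.AX.ArbX
import Pool.Agent.N561.EK.ArbE
import Pool.Agent.N561.EK.MainY

/-!
# Explicit constants: from the iterated integrals to the Kashaev invariants, expansions
-/

set_option autoImplicit false

namespace Pool.Agent.N561.ArbK

open Finset Filter Topology
open Pool.Agent.TH563.UV.Arb
open Pool.Agent.TH563.Z.Arb
open Pool.Agent.TH563.V.Arb
open Pool.Agent.TH563.CV
open Pool.Agent.TH563.CU (Unq)
open Pool.Agent.TH563.UV (Tb JT ngb kb AB jt)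
open Pool.Agent.TH219.J139 (ne_ngb nb_ngb ws_ngb)
open Pool.Agent.W711.HT (vN)
open Pool.Agent.W719.AX (EXY)
open Pool.Agent.N561.AX (exy_conj exy_congr kashaev_mirror)
open scoped Real

/-- from the iterated integral of one tree to the Kashaev invariants -/
theorem arb_one (t : Tree) (hF : ∃ (V : ℝ) (v : ℂ) (y : ℕ → ℂ),
    IsGreatest {W : ℝ | ∃ y : AB, y.shape = toTb t ∧ y.IsAng ∧ y.vol = W} V ∧
    2 * π * v.re = V ∧ y 0 ≠ 0 ∧ EXY (fun N : ℕ => jt (toTb t) N (vN N)) v y ∧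
    ∀ t' : Tree, toTb t = toTb t' → IsComplexVolume t' V v ∧ Unq t' V) :
    (∀ N : ℕ, ContinuousAt (jones t N) (root N)) ∧
    ∃ V C : ℝ, IsGreatest {W : ℝ | ∃ y : AngleTree, y.tree = t ∧ IsAngle y ∧ vol y = W} V ∧
      (∀ C' : ℝ, HasCS t V C' ↔ ∃ k : ℤ, C' = C + k * Real.pi ^ 2) ∧
      (∀ x : FlatTree, x.angles.tree = t → IsAngle x.angles → vol x.angles = V → x.IsFlat →
        ∃ k : ℤ, x.complexVolume = Complex.I * (V + Complex.I * C) + k * (Real.pi : ℂ) ^ 2) ∧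
      (∀ e f : ℤ, ∃ (C : ℝ) (y : ℕ → ℂ), HasCS t V C ∧
        y 0 ≠ 0 ∧ EXY (kashaev e f t) ((V + Complex.I * C) / (2 * Real.pi)) y ∧
        EXY (kashaev (4 * t.circles - e) f t.mirror) ((V - Complex.I * C) / (2 * Real.pi))
          (fun k => (starRingEnd ℂ) (y k))) ∧
      (∀ s : Tree, t = s.double → HasCS t V 0 ∧ ∃ x : ℕ → ℝ, 0 < x 0 ∧
        EXY (kashaev (4 * s.circles) 1 t) ((V / (2 * Real.pi) : ℝ) : ℂ)
          (fun k => (x k : ℂ))) ∧
      (t.weight = 0 → (t.kids.map Tree.mirror).Perm t.kids → HasCS t V 0 ∧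
        ∃ (f : ℤ) (x : ℕ → ℝ), x 0 ≠ 0 ∧
        (∀ N : ℕ, 2 ≤ N → ∃ r : ℝ, kashaev (2 * t.circles) f t N = r) ∧
        EXY (kashaev (2 * t.circles) f t) ((V / (2 * Real.pi) : ℝ) : ℂ)
          (fun k => (x k : ℂ))) := by
  obtain ⟨V, v, y, h2, hv, hy, hexp, hcu⟩ := hF
  obtain ⟨hcv, hun⟩ := hcu t rfl
  have hj : ∀ N, jones t N = Pool.Agent.TH563.UV.jt (toTb t) N := fun N => jones_to t N
  have hroot : ∀ N : ℕ, root N = Pool.Agent.W711.HT.vN N := fun N => rfl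
  have hE : EXY (fun N : ℕ => jones t N (root N)) v y := by
    intro K
    obtain ⟨C, hC⟩ := hexp K
    refine ⟨C, hC.mono fun N hN => ?_⟩
    beta_reduce
    rw [hj, hroot]
    exact hN
  have hV : IsGreatest {W : ℝ | ∃ y : AngleTree, y.tree = t ∧ IsAngle y ∧ vol y = W} V := by
    rw [volume_eq]
    exact h2
  have h3 : ∀ e f : ℤ, ∃ (v : ℂ) (y : ℕ → ℂ), 2 * Real.pi * v.re = V ∧ IsComplexVolume t V v ∧
        y 0 ≠ 0 ∧ EXY (kashaev e f t) v y := by
    intro e f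
    obtain ⟨y', hy', h⟩ := hE.frame hy e f
    refine ⟨_, y', ?_, ?_, hy', h⟩
    · have e1 : (v + Real.pi * Complex.I * (e + f)).re = v.re := by
        have : (Real.pi : ℂ) * Complex.I * (e + f) = ((Real.pi * (e + f) : ℝ) : ℂ) * Complex.I := by
          push_cast
          ring
        rw [this, Complex.add_re, Complex.re_ofReal_mul, Complex.I_re, mul_zero, add_zero]
      rw [e1]
      exact hv
    · have := hcv.add (e + f)
      push_cast at this
      exact this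
  have h3' : ∀ e f : ℤ, ∃ (v : ℂ) (y : ℕ → ℂ), 2 * Real.pi * v.re = V ∧
        y 0 ≠ 0 ∧ EXY (kashaev e f t) v y := by
    intro e f
    obtain ⟨v, y, g1, -, g2, g3⟩ := h3 e f
    exact ⟨v, y, g1, g2, g3⟩
  have key : ∀ (e f : ℤ) (x : ℕ → ℝ), x 0 ≠ 0 →
      EXY (kashaev e f t) ((V / (2 * Real.pi) : ℝ) : ℂ) (fun k => (x k : ℂ)) → HasCS t V 0 := by
    intro e f x hx h
    obtain ⟨v, y, hv, hcv, hy, h'⟩ := h3 e f
    obtain ⟨n, hn⟩ := exy_unique hy (by exact_mod_cast hx) h' h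
    have h6 := hcv.add (2 * n)
    have e1 : v + Real.pi * Complex.I * ((2 * n : ℤ) : ℂ) = ((V / (2 * Real.pi) : ℝ) : ℂ) := by
      rw [hn]
      push_cast
      ring
    rw [e1] at h6
    have h7 := h6.hasCS (by
      rw [Complex.ofReal_re]
      field_simp)
    rwa [Complex.ofReal_im, mul_zero] at h7
  have hC := hcv.hasCS hv
  have hiff : ∀ C' : ℝ, HasCS t V C' ↔ ∃ k : ℤ, C' = 2 * Real.pi * v.im + k * Real.pi ^ 2 := by
    intro C'
    obtain ⟨x, x1, x2, x3, x4, n, x5⟩ := hC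
    constructor
    · rintro ⟨z, z1, z2, z3, z4, m, z5⟩
      obtain ⟨j, hj⟩ := hun x z ⟨x1, x2, x3, x4⟩ ⟨z1, z2, z3, z4⟩
      refine ⟨n - m - j, ?_⟩
      have e1 : ((C' : ℂ)) = ((2 * Real.pi * v.im + (n - m - j : ℤ) * Real.pi ^ 2 : ℝ) : ℂ) := by
        push_cast at x5 ⊢
        linear_combination x5 - z5 - hj + ((C' : ℂ) - 2 * Real.pi * v.im) * Complex.I_sq
      exact_mod_cast e1
    · rintro ⟨k, rfl⟩
      refine ⟨x, x1, x2, x3, x4, n - k, ?_⟩
      push_cast at x5 ⊢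
      linear_combination x5 + (k : ℂ) * (Real.pi : ℂ) ^ 2 * Complex.I_sq
  refine ⟨fun N => ?_, V, 2 * Real.pi * v.im, hV, hiff, fun x x1 x2 x3 x4 => ?_, fun e f => ?_,
    fun s hs => ?_, fun hw hp => ?_⟩
  · rw [hj]
    exact Pool.Agent.TH639.J28.cnt _ _
  · obtain ⟨z, z1, z2, z3, z4, n, z5⟩ := hC
    obtain ⟨j, hj⟩ := hun z x ⟨z1, z2, z3, z4⟩ ⟨x1, x2, x3, x4⟩
    refine ⟨j - n, ?_⟩
    rw [hj]
    push_cast at z5 ⊢
    linear_combination (-1 : ℂ) * z5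
  · obtain ⟨v, y, hv, hcv, hy, h⟩ := h3 e f
    refine ⟨2 * Real.pi * v.im, y, hcv.hasCS hv, hy, ?_, ?_⟩
    · rw [← exp_form_v hv]
      exact h
    · have e1 : ((V : ℂ) - Complex.I * (2 * Real.pi * v.im : ℝ)) / (2 * Real.pi) =
          (starRingEnd ℂ) v := by
        have e2 := congrArg (starRingEnd ℂ) (exp_form_v hv)
        rw [e2, map_div₀, map_add, map_mul, map_mul, Complex.conj_I, Complex.conj_ofReal,
          Complex.conj_ofReal, Complex.conj_ofReal, map_ofNat]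
        ring
      rw [e1]
      refine exy_congr (exy_conj h) ?_
      filter_upwards [eventually_ge_atTop 2] with N hN
      rw [kashaev_mirror _ _ _ hN]
      congr 2
      ring
  · have h4 : ∃ x : ℕ → ℝ, 0 < x 0 ∧
        EXY (kashaev (4 * s.circles) 1 t) ((V / (2 * Real.pi) : ℝ) : ℂ)
          (fun k => (x k : ℂ)) := by
      subst hs
      exact dbl_part h3'
    obtain ⟨x, hx, h⟩ := h4
    exact ⟨key _ _ x hx.ne' h, x, hx, h⟩
  · obtain ⟨f, x, hx, hr, h⟩ := perm_part hw hp h3'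
    exact ⟨key _ _ x hx h, f, x, hx, hr, h⟩

end Pool.Agent.N561.ArbK
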