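import Pool.Agent.N561.EK.ArbF
import Pool.Agent.N561.V.Fin
import Pool.Agent.N755.EK.Pot
import Pool.Agent.N999.EK.HesMul
import Pool.Agent.N868.EK.Cor
import Pool.Agent.N27.EK.Edg
import Pool.Agent.N559.EK.Fin
import Pool.Agent.N490.EK.K0M
import Pool.Agent.N738.EK.Kup
import Pool.Agent.N160.EK.Kfr
import Pool.Agent.N424.EK.Crt
import Pool.Agent.N50.EK.Mm
import Pool.Agent.N262.EK.Tpn
import Pool.Agent.N424.EK.Stp
import Pool.Agent.N134.EK.Cir
import Pool.Agent.N134.EK.Rte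
import Pool.Agent.N50.EK.Pre
import Pool.Agent.N34.EK.Efe
import Pool.Agent.N277.EK.Geoe

/-!
# Explicit constants: the parts together
-/

set_option autoImplicit false

namespace Pool.Agent.N561.EK

open Pool.Agent.N561

theorem f_all : ALL :=
  all_of Pool.Agent.N755.EK.pot Pool.Agent.N999.EK.hes Pool.Agent.N999.EK.mul
    Pool.Agent.N868.EK.cor Pool.Agent.N27.EK.Edg.edg Pool.Agent.N559.EK.ths
    (Pool.Agent.N490.EK.k0m Pool.Agent.N207.VS.lapl) (Pool.Agent.N738.EK.kup f_rb)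
    (Pool.Agent.N160.EK.kfr Pool.Agent.N999.EK.hes Pool.Agent.N999.EK.mul)
    Pool.Agent.N424.EK.crt (Pool.Agent.N262.EK.tpn Pool.Agent.N50.EK.mm)
    (Pool.Agent.N424.EK.stp' Pool.Agent.N878.F.out Pool.Agent.N878.F.outb)
    (Pool.Agent.N134.EK.cir f_vt) (Pool.Agent.N134.EK.rte Pool.Agent.N878.F.out f_root)
    Pool.Agent.N50.EK.pre (Pool.Agent.N34.EK.efe Pool.Agent.N559.EK.ths) Pool.Agent.N277.EK.geoe

theorem f_fin : S_FINE := fine_of f_all

end Pool.Agent.N561.EK
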