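import Pool.Agent.N561.EK.HandY
import Pool.Agent.N561.EK.Fin
import Pool.Agent.N216.EK.Kxf
import Pool.Agent.N499.EK.StX
import Pool.Agent.N475.EK.Cix
import Pool.Agent.N475.EK.Rtx
import Pool.Agent.N891.EK.Gpe
import Pool.Agent.N765.EK.GeoY
import Pool.Agent.N457.AX.Cont
import Pool.Agent.N499.AX.OutX

/-!
# Explicit constants, expansions and the complex volume: the parts together
-/

set_option autoImplicit false

namespace Pool.Agent.N561.EK

open Pool.Agent.N561

theorem f_finy : S_FINY := by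
  have hA := f_all
  obtain ⟨Ak, hAk⟩ := Pool.Agent.N216.EK.kxf Pool.Agent.N457.AX.cont Pool.Agent.W719.AR.f_KER
    (Pool.Agent.W719.AX.f_KXC Pool.Agent.W719.AX.f_WIN) hA.pot hA.kmw
  exact finy_of hA ⟨hAk, Pool.Agent.N499.EK.prx, Pool.Agent.N499.EK.stx,
    Pool.Agent.N475.EK.cix Pool.Agent.TH416.J1740.vtx,
    Pool.Agent.N475.EK.rtxe Pool.Agent.N499.AX.outx Pool.Agent.TH886.vlt_last,
    Pool.Agent.N891.EK.gpe' hA.pot hA.efe, Pool.Agent.N765.EK.gey⟩

end Pool.Agent.N561.EK
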