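import Pool.Agent.N561.EK.ArbY
import Pool.Agent.N561.EK.ArbF
import Pool.Agent.N561.AX.Hand

/-!
# Explicit constants: the forms used by the hand-ins on expansions
-/

set_option autoImplicit false

namespace Pool.Agent.N561.ArbK

open Finset Filter Topology
open Pool.Agent.TH563.UV.Arb
open Pool.Agent.TH563.Z.Arb
open Pool.Agent.TH563.CV
open Pool.Agent.W719.AX (EXY)
open Pool.Agent.N561.EK (S_FINY)

/-- the expansions of the invariants of the link and of its mirror image -/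
theorem mainM (hF : S_FINY) (t : Tree) (hs : 1 ≤ t.children) (ht : AllTwisted t) :
    ∃ V C₀ : ℝ, IsGreatest {W : ℝ | ∃ y : AngleTree, y.tree = t ∧ IsAngle y ∧ vol y = W} V ∧
      (∀ C : ℝ, HasCS t V C ↔ ∃ k : ℤ, C = C₀ + k * Real.pi ^ 2) ∧
      (∀ x : FlatTree, x.angles.tree = t → IsAngle x.angles → vol x.angles = V → x.IsFlat →
        ∃ k : ℤ, x.complexVolume = Complex.I * (V + Complex.I * C₀) + k * (Real.pi : ℂ) ^ 2) ∧
      (∀ e f : ℤ, ∃ (C : ℝ) (y : ℕ → ℂ), HasCS t V C ∧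
        y 0 ≠ 0 ∧ EXY (kashaev e f t) ((V + Complex.I * C) / (2 * Real.pi)) y) ∧
      (∀ e f : ℤ, ∃ (C : ℝ) (y : ℕ → ℂ), HasCS t V C ∧
        y 0 ≠ 0 ∧ EXY (kashaev e f t.mirror) ((V - Complex.I * C) / (2 * Real.pi)) y) ∧
      (∀ s : Tree, t = s.double → HasCS t V 0 ∧ ∃ x : ℕ → ℝ, 0 < x 0 ∧
        EXY (kashaev (4 * s.circles) 1 t) ((V / (2 * Real.pi) : ℝ) : ℂ)
          (fun k => (x k : ℂ))) ∧
      (t.weight = 0 → (t.kids.map Tree.mirror).Perm t.kids → HasCS t V 0 ∧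
        ∃ (f : ℤ) (x : ℕ → ℝ), x 0 ≠ 0 ∧
        (∀ N : ℕ, 2 ≤ N → ∃ r : ℝ, kashaev (2 * t.circles) f t N = r) ∧
        EXY (kashaev (2 * t.circles) f t) ((V / (2 * Real.pi) : ℝ) : ℂ)
          (fun k => (x k : ℂ))) := by
  obtain ⟨-, V, C₀, h2, hC₀, hX, h3, h4, h5⟩ := arb_one t (hF (toTb t) (below_ok t ht.1)
    (by rw [bl_to, nc_to, wt_to]; exact lg_of ht.2) (by rw [nc_to]; exact hs))
  refine ⟨V, C₀, h2, hC₀, hX, fun e f => ?_, fun e f => ?_, h4, h5⟩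
  · obtain ⟨C, y, hC, hy, h, -⟩ := h3 e f
    exact ⟨C, y, hC, hy, h⟩
  · obtain ⟨C, y, hC, hy, -, h⟩ := h3 (4 * t.circles - e) f
    rw [sub_sub_cancel] at h
    exact ⟨C, _, hC, by simpa using hy, h⟩

end Pool.Agent.N561.ArbK
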